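import Pool.Agent.Helper30.U.Assembly
import Pool.Agent.Helper25.DI.S3Hom

/-!
Classification of the countable set-homogeneous graphs: exactly the homogeneous graphs, `R(3)`
and its complement.
-/

namespace Pool.Agent.Results.MP_506470_co.Classification

open SetHom

/-- A countable graph is set-homogeneous if and only if it is homogeneous or isomorphic to `R(3)`,
the graph underlying the myopic local order `S(3)`, or to its complement. -/
theorem result {V : Type} [Countable V] (G : SimpleGraph V) :
    SetHomogeneous G ↔ Homogeneous G ∨ Nonempty (G ≃g R3) ∨ Nonempty (G ≃g R3ᶜ) :=
  Ori.classify_iff_of (fun _ _ _ h => Un.di_homogeneous h) G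

end Pool.Agent.Results.MP_506470_co.Classification
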